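import Pool.Agent.Helper45.RT.Stmts3

/-!
Row GO2.
-/

set_option autoImplicit false

namespace RTwo

namespace GO2

open Finset

/-! ### Counting -/

/-- number of `w < n` with `c v w = x` -/
def nX (n : ℕ) (c : Col) (v x : ℕ) : ℕ := ((range n).filter (fun w => c v w = x)).card

theorem nX_succ (n : ℕ) (c : Col) (v x : ℕ) :
    nX (n + 1) c v x = nX n c v x + if c v n = x then 1 else 0 := by
  unfold nX
  rw [card_filter, card_filter, sum_range_succ]

theorem nX_last (k : ℕ) (c : Col) (x : ℕ) (hc : SymC (k + 1) c) (hx : x ≠ 0) :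
    nX (k + 1) c k x = nX k c k x := by
  rw [nX_succ, (hc k k (by omega) (by omega)).2.1, if_neg (Ne.symm hx), add_zero]

theorem totX (k : ℕ) (c : Col) (x : ℕ) (hc : SymC (k + 1) c) (hx : x ≠ 0) :
    ∑ v ∈ range (k + 1), nX (k + 1) c v x = ∑ v ∈ range k, nX k c v x + 2 * nX k c k x := by
  rw [sum_range_succ, nX_last k c x hc hx]
  have h1 : ∑ v ∈ range k, nX (k + 1) c v x =
      ∑ v ∈ range k, nX k c v x + ∑ v ∈ range k, (if c v k = x then 1 else 0) := by
    rw [← sum_add_distrib]
    exact sum_congr rfl fun v _ => nX_succ k c v x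
  have h2 : ∑ v ∈ range k, (if c v k = x then 1 else 0) = nX k c k x := by
    unfold nX
    rw [card_filter]
    refine sum_congr rfl fun v hv => ?_
    rw [(hc v k (by have := mem_range.1 hv; omega) (by omega)).1]
  rw [h1, h2]
  ring

theorem totA_succ (k : ℕ) (c : Col) (hc : SymC (k + 1) c) :
    totA (k + 1) c = totA k c + 2 * nX k c k 1 := totX k c 1 hc (by norm_num)

theorem totB_succ (k : ℕ) (c : Col) (hc : SymC (k + 1) c) :
    totB (k + 1) c = totB k c + 2 * nX k c k 2 := totX k c 2 hc (by norm_num)

theorem dgr_last (k : ℕ) (c : Col) (hc : SymC (k + 1) c) :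
    dgr (k + 1) c k = nX k c k 1 + nX k c k 2 := by
  have h1 := nX_last k c 1 hc (by norm_num)
  have h2 := nX_last k c 2 hc (by norm_num)
  unfold dgr
  rw [← h1, ← h2]
  rfl

theorem dgr_zero (k : ℕ) (c : Col) (j : ℕ) (h : c j k = 0) : dgr (k + 1) c j = dgr k c j := by
  have h1 := nX_succ k c j 1
  have h2 := nX_succ k c j 2
  rw [h, if_neg (by norm_num), add_zero] at h1 h2
  unfold dgr
  exact congrArg₂ (· + ·) h1 h2

/-- numbers of undecided vertices with given colour -/
def unX (k : ℕ) (c : Col) (und x : ℕ) : ℕ :=
  ((range k).filter (fun j => und.testBit j = true ∧ c k j = x)).card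

theorem nX_split (k : ℕ) (c : Col) (und x : ℕ) :
    nX k c k x = decN k c und x + unX k c und x := by
  unfold nX decN unX
  rw [card_filter, card_filter, card_filter, ← sum_add_distrib]
  refine sum_congr rfl fun j _ => ?_
  cases hb : und.testBit j <;> by_cases hx : c k j = x <;> simp [hx]

theorem undN_split (k : ℕ) (c : Col) (und : ℕ) (hc : SymC (k + 1) c) :
    undN k und = unX k c und 0 + unX k c und 1 + unX k c und 2 := by
  unfold undN unX
  rw [card_filter, card_filter, card_filter, card_filter, ← sum_add_distrib, ← sum_add_distrib]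
  refine sum_congr rfl fun j hj => ?_
  have hj' := mem_range.1 hj
  have h2 : c k j ≤ 2 := (hc k j (by omega) (by omega)).2.2
  cases hb : und.testBit j
  · simp
  · interval_cases c k j <;> simp

theorem unX_pos (k : ℕ) (c : Col) (und x j : ℕ) (hj : j < k) (hu : und.testBit j = true)
    (hx : c k j = x) : 1 ≤ unX k c und x :=
  card_pos.2 ⟨j, mem_filter.2 ⟨mem_range.2 hj, hu, hx⟩⟩

theorem decN_step (k : ℕ) (c : Col) (und und' x j : ℕ) (hj : j < k) (hu : und.testBit j = true)
    (h : ∀ i, und'.testBit i = (und.testBit i && decide (i ≠ j))) :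
    decN k c und' x = decN k c und x + if c k j = x then 1 else 0 := by
  unfold decN
  rw [card_filter, card_filter]
  have h1 : (if c k j = x then 1 else 0) =
      ∑ i ∈ range k, if i = j then (if c k j = x then 1 else 0) else 0 := by
    rw [sum_ite_eq' (range k) j, if_pos (mem_range.2 hj)]
  rw [h1, ← sum_add_distrib]
  refine sum_congr rfl fun i _ => ?_
  rw [h i]
  by_cases hij : i = j
  · subst hij
    simp [hu]
  · simp [hij]

theorem undN_step (k : ℕ) (und und' j : ℕ) (hj : j < k) (hu : und.testBit j = true)
    (h : ∀ i, und'.testBit i = (und.testBit i && decide (i ≠ j))) :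
    undN k und = undN k und' + 1 := by
  unfold undN
  rw [card_filter, card_filter]
  have h1 : 1 = ∑ i ∈ range k, if i = j then 1 else 0 := by
    rw [sum_ite_eq' (range k) j, if_pos (mem_range.2 hj)]
  rw [h1, ← sum_add_distrib]
  refine sum_congr rfl fun i _ => ?_
  rw [h i]
  by_cases hij : i = j
  · subst hij
    simp [hu, hj]
  · simp [hij]

/-! ### The continuation is used -/

theorem sel_true {b x y : Bool} (h : sel b x y = true) :
    (b = true ∧ x = true) ∨ (b = false ∧ y = true) := by
  cases b with
  | false => exact Or.inr ⟨rfl, h⟩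
  | true => exact Or.inl ⟨rfl, h⟩

theorem beq_true {a b : ℕ} (h : Nat.beq a b = true) : a = b := Nat.eq_of_beq_eq_true h

theorem beq_false {a b : ℕ} (h : Nat.beq a b = false) : a ≠ b := Nat.ne_of_beq_eq_false h

theorem ble_true {a b : ℕ} (h : Nat.ble a b = true) : a ≤ b := Nat.le_of_ble_eq_true h

theorem ble_false {a b : ℕ} (h : Nat.ble a b = false) : b < a := by
  by_contra hlt
  rw [Nat.ble_eq_true_of_le (not_lt.1 hlt)] at h
  exact absurd h (by simp)

/-- the continuation is used -/
def GUse (ih : ℕ → ℕ → ℕ → ℕ → ℕ → ℕ → ℕ → ℕ → (ℕ → Bool) → Bool) : Prop :=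
  ∀ (cur und ra rb u mz b s : ℕ) (K : ℕ → Bool),
    ih cur und ra rb u mz b s K = true → ∃ s', K s' = true

theorem maskC_true {cur M : ℕ} {x : Bool} (h : maskC cur M x = true) :
    Nat.land cur M = M ∧ M ≠ 0 ∧ x = true := by
  rcases sel_true h with ⟨h1, h2⟩ | ⟨_, h2⟩
  · rcases sel_true h2 with ⟨_, h4⟩ | ⟨h3, h4⟩
    · exact absurd h4 (by simp)
    · exact ⟨beq_true h1, beq_false h3, h4⟩
  · exact absurd h2 (by simp)

theorem colC_use (T : List ℕ) (ih : ℕ → ℕ → ℕ → ℕ → ℕ → ℕ → ℕ → ℕ → (ℕ → Bool) → Bool)
    (hih : GUse ih) {cur und ra rb u mz b s m rc : ℕ} {K : ℕ → Bool}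
    (h : colC T ih cur und ra rb u mz b s m rc K = true) : ∃ s', K s' = true := by
  rcases sel_true h with ⟨_, h⟩ | ⟨_, h⟩
  · rcases sel_true h with ⟨_, h⟩ | ⟨_, h⟩
    · exact ⟨s, h⟩
    · rcases sel_true h with ⟨_, h⟩ | ⟨_, h⟩
      · exact ⟨s, h⟩
      · exact hih _ _ _ _ _ _ _ _ _ h
  · exact ⟨s, (maskC_true h).2.2⟩

/-- closed by a forbidden pattern -/
theorem mask_closed (h1 : ST_BITS) (h2 : ST_RLR) (I : ℝ → ℝ → Prop) (k : ℕ) (T : List ℕ) (c : Col)
    (hk : k ≤ 9) (hr : Rl I (k + 1) c) (hT : ∀ m, get T m ≠ 0 → Bad I (k + 1) (get T m))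
    (cur und m : ℕ) (hinv : Inv k c cur und) {x : Bool}
    (h : maskC cur (get T m) x = true) : False := by
  obtain ⟨ha, hb, _⟩ := maskC_true h
  refine hT m hb (h2 I I (k + 1) (k + 1) c (dgt (get T m)) id hr (fun _ _ h => h)
    (fun i j h _ => h) (fun i h => h) ?_)
  intro i j e hi hj he hd
  have hbit : (get T m).testBit (20 * i + 2 * j + e) = true := by
    rw [← (h1 0 (fun _ _ => 0) (by omega) (fun _ _ _ _ => by simp)).2.2.2.2 (get T m) i j e he]
    exact hd
  have hcur : cur.testBit (20 * i + 2 * j + e) = true := by
    have h3 : (cur &&& get T m).testBit (20 * i + 2 * j + e) =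
        (get T m).testBit (20 * i + 2 * j + e) := by
      have : cur &&& get T m = get T m := ha
      rw [this]
    rw [Nat.testBit_and, hbit, Bool.and_true] at h3
    exact h3
  obtain ⟨hI1, hI2, hI3, _⟩ := hinv
  by_cases hjk : j < k
  · by_cases hik : i < k
    · rw [hI1 i j e hik hjk he] at hcur
      exact hcur
    · have : i = k := by omega
      subst this
      rw [hI2 j e hjk he, Bool.and_eq_true] at hcur
      exact hcur.2
  · rw [hI3 i j e (by omega) (by omega) (by omega) he] at hcur
    exact absurd hcur (by simp)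

end GO2

open Finset GO2 in
theorem st_GO2 (h1 : ST_BITS) (h2 : ST_RLR) (h3 : ST_SYMK) (h4 : ST_DIH) (h5 : ST_INV)
    (h6 : ST_GO1) : ST_GO2 := by
  intro I k t bq D T L c hk2 hk9 hc hr hT hD ht hA hB hmin hbq fuel
  have hA1 := totA_succ k c hc
  have hB1 := totB_succ k c hc
  have hdg := dgr_last k c hc
  have htot : tot (k + 1) c = tot k c + 2 * dgr (k + 1) c k := by
    unfold tot
    rw [hA1, hB1, hdg]
    ring
  have hbqd : bq ≤ dgr (k + 1) c k := by omega
  induction fuel with
  | zero =>
    intro cur und ra rb u mz b s K _ _ _ _ _ _ _ _ _ _ h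
    exact absurd h (by simp [go])
  | succ fuel ih =>
    intro cur und ra rb u mz b s K hinv hund hu hra hrb hb hmz hbu hbmz hbm h
    have hsplit1 := nX_split k c und 1
    have hsplit2 := nX_split k c und 2
    have hun := undN_split k c und hc
    have huse : GUse (go k bq D T L fuel) := fun cur und ra rb u mz b s K h =>
      h6 k bq D T L fuel cur und ra rb u mz b s K h
    change sel (Nat.beq u 0)
        (sel (acceptC k L cur s) (K (Nat.shiftRight s 20)) false)
        (nodeC k bq D T (go k bq D T L fuel) cur und ra rb u mz b (Nat.shiftRight s 36)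
          (Nat.mod s 16) (Nat.mod (Nat.shiftRight s 4) 65536)
          (Nat.mod (Nat.shiftRight s 20) 65536) K) = true at h
    rcases sel_true h with ⟨hu0, h⟩ | ⟨hu0, h⟩
    · -- all decided
      have hu0' := beq_true hu0
      have hall : ∀ j, j < k → und.testBit j = false := by
        intro j hj
        by_contra hne
        have hne' : und.testBit j = true := by simpa using hne
        have : 1 ≤ undN k und := card_pos.2 ⟨j, mem_filter.2 ⟨mem_range.2 hj, hne'⟩⟩
        omega
      rcases sel_true h with ⟨h, _⟩ | ⟨_, h⟩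
      · rcases sel_true h with ⟨hle, h⟩ | ⟨_, h⟩
        · have hle' := ble_true hle
          have heq := beq_true h
          rw [h3 k c cur und hk9 hc hinv hall] at heq
          have hd := h4 (k + 1) (Nat.mod (Nat.shiftRight s 14) 16) (Nat.mod (Nat.shiftRight s 18) 2)
            c (by omega) (by omega) (by omega)
            (fun i j hi hj => le_trans (hc i j hi hj).2.2 (by norm_num))
          exact ⟨_, _, _, by omega, heq.symm.trans hd⟩
        · exact absurd h (by simp)
      · exact absurd h (by simp)
    · -- a node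
      generalize hj : Nat.mod s 16 = j at h
      generalize hm1 : Nat.mod (Nat.shiftRight s 4) 65536 = m1 at h
      generalize hm2 : Nat.mod (Nat.shiftRight s 20) 65536 = m2 at h
      generalize hs1 : Nat.shiftRight s 36 = s1 at h
      rcases sel_true h with ⟨hbit, h⟩ | ⟨_, h⟩
      swap
      · exact absurd h (by simp)
      have hbit' : und.testBit j = true := by
        have hb' : und >>> j % 2 = 1 := beq_true hbit
        rw [Nat.testBit, Nat.and_comm, Nat.and_one_is_mod, hb']
        rfl
      have hjk : j < k := by
        by_contra hge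
        have : und.testBit j = false :=
          Nat.testBit_lt_two_pow (lt_of_lt_of_le hund (Nat.pow_le_pow_right (by norm_num)
            (not_lt.1 hge)))
        rw [this] at hbit'
        exact absurd hbit' (by simp)
      obtain ⟨hI0, hI1, hI2, hIlt, hIbit⟩ := h5 k c cur und j hk9 hc hinv hjk hbit' hund
      have hsh : Nat.sub und (Nat.shiftLeft 1 j) = und - 2 ^ j := by
        change und - 1 <<< j = _
        rw [Nat.one_shiftLeft]
      rw [hsh] at h
      have hun' := undN_step k und (und - 2 ^ j) j hjk hbit' hIbit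
      have hd1 := decN_step k c und (und - 2 ^ j) 1 j hjk hbit' hIbit
      have hd2 := decN_step k c und (und - 2 ^ j) 2 j hjk hbit' hIbit
      have hcol : c k j ≤ 2 := (hc k j (by omega) (by omega)).2.2
      have hcjk : c j k = c k j := (hc j k (by omega) (by omega)).1
      have hpu : Nat.pred u = undN k (und - 2 ^ j) := by
        rw [hu, hun']
        rfl
      rcases Nat.lt_or_ge (c k j) 1 with hc0 | hc1
      · -- colour 0
        have hc0' : c k j = 0 := by omega
        rw [hc0', if_neg (by norm_num), add_zero] at hd1 hd2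
        obtain ⟨t1, h⟩ := colC_use T _ huse h
        obtain ⟨t2, h⟩ := colC_use T _ huse h
        have hpos := unX_pos k c und 0 j hjk hbit' hc0'
        have hdj : Nat.mod (Nat.shiftRight D (Nat.mul 4 j)) 16 = dgr k c j := by
          rw [← hD j hjk]
          change D >>> (4 * j) % 16 = _
          rw [Nat.shiftRight_eq_div_pow, pow_mul]
          norm_num
        rw [hdj] at h
        have hmj := hmin j hjk
        rw [dgr_zero k c j (by rw [hcjk, hc0'])] at hmj
        rcases sel_true h with ⟨hx, _⟩ | ⟨hx, h⟩
        · have hx' : b + u ≤ bq := ble_true hx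
          omega
        have hx' : bq < b + u := ble_false hx
        rcases sel_true h with ⟨hy, h⟩ | ⟨hy, _⟩
        swap
        · have hy' := ble_false hy
          omega
        have hy' := ble_true hy
        rcases sel_true h with ⟨hz, h⟩ | ⟨hz, _⟩
        swap
        · have hz' := ble_false hz
          omega
        have hz' := ble_true hz
        have hmz' : seln (Nat.ble (dgr k c j) mz) (dgr k c j) mz = min (dgr k c j) mz := by
          cases hw : Nat.ble (dgr k c j) mz with
          | false =>
            have := ble_false hw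
            rw [min_eq_right this.le]
            rfl
          | true =>
            have := ble_true hw
            rw [min_eq_left this]
            rfl
        rw [hmz'] at h
        exact ih cur (und - 2 ^ j) ra rb (Nat.pred u) (min (dgr k c j) mz) b t2 K (hI0 hc0') hIlt
          hpu (by rw [hd1]; exact hra) (by rw [hd2]; exact hrb) (by rw [hd1, hd2]; exact hb)
          (le_min hmj hmz) (by omega) (le_min hy' hbmz) (le_min hz' hbm) h
      · rcases Nat.lt_or_ge (c k j) 2 with hc1' | hc2
        · -- colour 1
          have hcc : c k j = 1 := by omega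
          rw [hcc, if_pos rfl] at hd1
          rw [hcc, if_neg (by norm_num), add_zero] at hd2
          have hpos := unX_pos k c und 1 j hjk hbit' hcc
          have hinv' := hI1 hcc
          rcases sel_true h with ⟨_, h⟩ | ⟨_, h⟩
          swap
          · exact (mask_closed h1 h2 I k T c hk9 hr hT _ _ m1 hinv' h).elim
          rcases sel_true h with ⟨hx, _⟩ | ⟨hx, h⟩
          · have hx' := beq_true hx
            omega
          have hx' := beq_false hx
          rcases sel_true h with ⟨hy, _⟩ | ⟨hy, h⟩
          · have hy' := ble_true hy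
            omega
          have hy' := ble_false hy
          have hra' : Nat.pred ra = 11 - totA k c / 2 - decN k c (und - 2 ^ j) 1 := by
            rw [hd1, Nat.pred_eq_sub_one]
            omega
          exact ih _ (und - 2 ^ j) (Nat.pred ra) rb (Nat.pred u) mz (Nat.succ b) s1 _ hinv' hIlt hpu
            hra' (by rw [hd2]; exact hrb) (by rw [hd1, hd2]; omega) hmz (by omega) hbmz (by omega) h
        · -- colour 2
          have hcc : c k j = 2 := by omega
          rw [hcc, if_neg (by norm_num), add_zero] at hd1
          rw [hcc, if_pos rfl] at hd2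
          have hpos := unX_pos k c und 2 j hjk hbit' hcc
          have hinv' := hI2 hcc
          obtain ⟨t1, h⟩ := colC_use T _ huse h
          rcases sel_true h with ⟨_, h⟩ | ⟨_, h⟩
          swap
          · exact (mask_closed h1 h2 I k T c hk9 hr hT _ _ m2 hinv' h).elim
          rcases sel_true h with ⟨hx, _⟩ | ⟨hx, h⟩
          · have hx' := beq_true hx
            omega
          have hx' := beq_false hx
          rcases sel_true h with ⟨hy, _⟩ | ⟨hy, h⟩
          · have hy' := ble_true hy
            omega
          have hy' := ble_false hy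
          have hrb' : Nat.pred rb = 11 - totB k c / 2 - decN k c (und - 2 ^ j) 2 := by
            rw [hd2, Nat.pred_eq_sub_one]
            omega
          exact ih _ (und - 2 ^ j) ra (Nat.pred rb) (Nat.pred u) mz (Nat.succ b) t1 _ hinv' hIlt hpu
            (by rw [hd1]; exact hra) hrb' (by rw [hd1, hd2]; omega) hmz (by omega) hbmz (by omega) h

end RTwo
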